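import Pool.Agent.Helper14.BSC.Stmts

set_option autoImplicit false

namespace Pool.Agent.Helper14.BSC

open Polynomial

theorem unr_prod (p : ℕ) [Fact p.Prime] :
    (∏ a : ZMod p, (X - C a) : (ZMod p)[X]) = X ^ p - X := by
  classical
  have h := FiniteField.roots_X_pow_card_sub_X (ZMod p)
  rw [ZMod.card] at h
  have hd := FiniteField.X_pow_card_sub_X_natDegree_eq (ZMod p) (Fact.out : p.Prime).one_lt
  have hm : (X ^ p - X : (ZMod p)[X]).Monic := by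
    apply monic_X_pow_sub
    rw [degree_X]
    exact_mod_cast (Fact.out : p.Prime).one_lt
  have hs := Polynomial.prod_multiset_X_sub_C_of_monic_of_roots_card_eq hm
    (by rw [h, hd]; simp [ZMod.card])
  rw [h] at hs
  exact hs

theorem unr_norm_p (p : ℕ) [Fact p.Prime] : ‖(p : ℂ_[p])‖ < 1 := by
  have h : (p : ℂ_[p]) = algebraMap ℚ_[p] ℂ_[p] p := by simp
  rw [h, norm_algebraMap']
  exact Padic.norm_p_lt_one

theorem unr_eval (p : ℕ) [Fact p.Prime] (x : ℂ_[p]) (hx : ‖x‖ ≤ 1) (f : ℤ[X])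
    (hf : f.map (Int.castRingHom (ZMod p)) = 0) : ‖aeval x f‖ < 1 := by
  refine lt_of_le_of_lt ?_ (unr_norm_p p)
  rw [aeval_eq_sum_range]
  apply IsUltrametricDist.norm_sum_le_of_forall_le_of_nonneg (norm_nonneg _)
  intro i _
  have h1 : ((f.coeff i : ℤ) : ZMod p) = 0 := by
    have := congrArg (fun q => coeff q i) hf
    simpa using this
  rw [ZMod.intCast_zmod_eq_zero_iff_dvd] at h1
  obtain ⟨c, hc⟩ := h1
  rw [hc, zsmul_eq_mul, norm_mul, norm_pow, Int.cast_mul, norm_mul, Int.cast_natCast]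
  have h2 : ‖(c : ℂ_[p])‖ ≤ 1 := IsUltrametricDist.norm_intCast_le_one _ _
  have h3 : ‖x‖ ^ i ≤ 1 := pow_le_one₀ (norm_nonneg _) hx
  calc ‖(p : ℂ_[p])‖ * ‖(c : ℂ_[p])‖ * ‖x‖ ^ i ≤ ‖(p : ℂ_[p])‖ * 1 * 1 := by gcongr
    _ = _ := by ring

theorem unr_res (p : ℕ) [Fact p.Prime] (x : ℂ_[p]) (hx : ‖x‖ ≤ 1) (h : ‖x ^ p - x‖ < 1) :
    ∃ i : ℕ, ‖x - i‖ < 1 := by
  classical
  by_contra hc
  push Not at hc
  set f : ℤ[X] := (∏ a : ZMod p, (X - C ((a.val : ℕ) : ℤ))) - (X ^ p - X) with hf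
  have h0 : f.map (Int.castRingHom (ZMod p)) = 0 := by
    rw [hf, Polynomial.map_sub, Polynomial.map_prod]
    have : ∀ a : ZMod p, Polynomial.map (Int.castRingHom (ZMod p)) (X - C ((a.val : ℕ) : ℤ)) = X - C a := by
      intro a
      rw [Polynomial.map_sub, map_X, map_C, eq_intCast, Int.cast_natCast, ZMod.natCast_zmod_val]
    simp only [this, unr_prod]
    simp
  have h1 := unr_eval p x hx f h0
  have h2 : aeval x f = (∏ a : ZMod p, (x - ((a.val : ℕ) : ℂ_[p]))) - (x ^ p - x) := by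
    rw [hf, map_sub, map_prod, map_sub, map_pow, aeval_X]
    congr 1
    refine Finset.prod_congr rfl fun a _ => ?_
    rw [map_sub, aeval_X, aeval_C, eq_intCast, Int.cast_natCast]
  have h3 : ‖∏ a : ZMod p, (x - ((a.val : ℕ) : ℂ_[p]))‖ < 1 := by
    have : (∏ a : ZMod p, (x - ((a.val : ℕ) : ℂ_[p]))) = aeval x f + (x ^ p - x) := by
      rw [h2]; ring
    rw [this]
    exact lt_of_le_of_lt (IsUltrametricDist.norm_add_le_max _ _) (max_lt h1 h)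
  rw [norm_prod] at h3
  have h4 : 1 ≤ ∏ a : ZMod p, ‖x - ((a.val : ℕ) : ℂ_[p])‖ := by
    calc (1 : ℝ) = ∏ a : ZMod p, 1 := by simp
      _ ≤ _ := Finset.prod_le_prod (fun _ _ => zero_le_one) (fun a _ => hc _)
  linarith

theorem unr_norm_nat (p : ℕ) [Fact p.Prime] (j : ℕ) (h0 : 0 < j) (hj : j < p) :
    ‖(j : ℂ_[p])‖ = 1 := by
  have h : (j : ℂ_[p]) = algebraMap ℚ_[p] ℂ_[p] j := by simp
  rw [h, norm_algebraMap']
  have h1 : ¬ ‖((j : ℤ) : ℚ_[p])‖ < 1 := by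
    rw [Padic.norm_intCast_lt_one_iff]
    intro hd
    have := Int.le_of_dvd (by exact_mod_cast h0) hd
    omega
  have h2 : ‖((j : ℤ) : ℚ_[p])‖ ≤ 1 := Padic.norm_int_le_one _
  rw [Int.cast_natCast] at h1 h2
  exact le_antisymm h2 (not_lt.1 h1)

theorem unr_int (p : ℕ) [Fact p.Prime] (a δ : ℂ_[p]) (hδ : ‖δ‖ ≤ 1) (h : a ^ p - a = δ) :
    ‖a‖ ≤ 1 := by
  by_contra hc
  push Not at hc
  have hp := (Fact.out : p.Prime).two_le
  have h1 : ‖a ^ p‖ ≤ ‖a‖ := by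
    have : a ^ p = a + δ := by rw [← h]; ring
    rw [this]
    refine (IsUltrametricDist.norm_add_le_max _ _).trans (max_le le_rfl ?_)
    linarith
  rw [norm_pow] at h1
  have h2 : ‖a‖ ^ 2 ≤ ‖a‖ ^ p := pow_le_pow_right₀ hc.le hp
  nlinarith

theorem unr_diff (p : ℕ) [Fact p.Prime] (a d : ℂ_[p]) (ha : ‖a‖ ≤ 1) (hd : ‖d‖ ≤ 1) (hd0 : d ≠ 0)
    (h : (a + d) ^ p - (a + d) = a ^ p - a) : ‖d ^ p - d‖ < 1 ∧ ‖d‖ = 1 := by
  have hp := (Fact.out : p.Prime)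
  rw [add_pow_prime_eq hp] at h
  set S := ∑ k ∈ Finset.Ioo 0 p, a ^ (k - 1) * d ^ (p - k - 1) * ((p.choose k / p : ℕ) : ℂ_[p]) with hS
  have hSn : ‖S‖ ≤ 1 := by
    apply IsUltrametricDist.norm_sum_le_of_forall_le_of_nonneg zero_le_one
    intro i _
    rw [norm_mul, norm_mul, norm_pow, norm_pow]
    have h1 : ‖a‖ ^ (i - 1) ≤ 1 := pow_le_one₀ (norm_nonneg _) ha
    have h2 : ‖d‖ ^ (p - i - 1) ≤ 1 := pow_le_one₀ (norm_nonneg _) hd
    have h3 : ‖((p.choose i / p : ℕ) : ℂ_[p])‖ ≤ 1 := IsUltrametricDist.norm_natCast_le_one _ _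
    calc _ ≤ (1 : ℝ) * 1 * 1 := by gcongr
      _ = 1 := by ring
  have h1 : d ^ p - d = - (p * a * d * S) := by linear_combination h
  have hpn := unr_norm_p p
  have h2 : ‖(p : ℂ_[p]) * a * S‖ < 1 := by
    rw [norm_mul, norm_mul]
    calc ‖(p : ℂ_[p])‖ * ‖a‖ * ‖S‖ ≤ ‖(p : ℂ_[p])‖ * 1 * 1 := by gcongr
      _ < 1 := by linarith
  have h3 : d ^ (p - 1) - 1 = - (p * a * S) := by
    have h4 : d * (d ^ (p - 1) - 1) = d * (- (p * a * S)) := by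
      have : d * d ^ (p - 1) = d ^ p := mul_pow_sub_one hp.ne_zero d
      linear_combination h1 + this
    exact mul_left_cancel₀ hd0 h4
  constructor
  · have : (p : ℂ_[p]) * a * d * S = (p * a * S) * d := by ring
    rw [h1, norm_neg, this, norm_mul]
    have := norm_nonneg d
    nlinarith [norm_nonneg ((p : ℂ_[p]) * a * S)]
  · refine le_antisymm hd ?_
    by_contra hc
    push Not at hc
    have h5 : ‖d ^ (p - 1)‖ < 1 := by
      rw [norm_pow]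
      exact pow_lt_one₀ (norm_nonneg _) hc (by have := hp.two_le; omega)
    have h6 : ‖(1 : ℂ_[p])‖ < 1 := by
      have : (1 : ℂ_[p]) = d ^ (p - 1) + p * a * S := by linear_combination -h3
      rw [this]
      exact lt_of_le_of_lt (IsUltrametricDist.norm_add_le_max _ _) (max_lt h5 h2)
    rw [norm_one] at h6
    exact lt_irrefl _ h6

section

variable {k Ω : Type} [Field k] [Field Ω] [Algebra k Ω] {p : ℕ} [Fact p.Prime]

theorem unr_mul (Lc : Loc k Ω p) (x y : Acl k Ω) : nm Lc (x * y) = nm Lc x * nm Lc y := by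
  unfold nm; rw [map_mul, norm_mul]

theorem unr_pow (Lc : Loc k Ω p) (x : Acl k Ω) (n : ℕ) : nm Lc (x ^ n) = nm Lc x ^ n := by
  unfold nm; rw [map_pow, norm_pow]

theorem unr_add (Lc : Loc k Ω p) (x y : Acl k Ω) : nm Lc (x + y) ≤ max (nm Lc x) (nm Lc y) := by
  unfold nm; rw [map_add]; exact IsUltrametricDist.norm_add_le_max _ _

theorem unr_neg (Lc : Loc k Ω p) (x : Acl k Ω) : nm Lc (-x) = nm Lc x := by
  unfold nm; rw [map_neg, norm_neg]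

theorem unr_sub (Lc : Loc k Ω p) (x y : Acl k Ω) : nm Lc (x - y) ≤ max (nm Lc x) (nm Lc y) := by
  have := unr_add Lc x (-y)
  rwa [unr_neg, ← sub_eq_add_neg] at this

theorem unr_one (Lc : Loc k Ω p) : nm Lc 1 = 1 := by
  unfold nm; rw [map_one, norm_one]

theorem unr_nonneg (Lc : Loc k Ω p) (x : Acl k Ω) : 0 ≤ nm Lc x := norm_nonneg _

theorem unr_eq_zero (Lc : Loc k Ω p) (x : Acl k Ω) : nm Lc x = 0 ↔ x = 0 := by
  unfold nm
  rw [norm_eq_zero, map_eq_zero]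

theorem unr_sum (Lc : Loc k Ω p) {α : Type} (s : Finset α) (f : α → Acl k Ω) (c : ℝ) (hc : 0 ≤ c)
    (h : ∀ i ∈ s, nm Lc (f i) ≤ c) : nm Lc (∑ i ∈ s, f i) ≤ c := by
  unfold nm
  rw [map_sum]
  exact IsUltrametricDist.norm_sum_le_of_forall_le_of_nonneg hc h

theorem unr_prodn (Lc : Loc k Ω p) {α : Type} (s : Finset α) (f : α → Acl k Ω) :
    nm Lc (∏ i ∈ s, f i) = ∏ i ∈ s, nm Lc (f i) := by
  unfold nm
  rw [map_prod, norm_prod]

/-- the constant of the Artin-Schreier equation -/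
theorem unr_delta (hR : ST_RESK) (Lc : Loc k Ω p) : ∃ δ ∈ FF Lc.S₁, nm Lc δ = 1 ∧
    ∀ x ∈ FF Lc.S₁, nm Lc x ≤ 1 → 1 ≤ nm Lc (x ^ p - x - δ) := by
  classical
  obtain ⟨κ, _, _, _, ρ, h1, hs, h0, hr⟩ := hR k Ω p Lc
  have hp := (Fact.out : p.Prime)
  have hρ0 : ρ 0 = 0 := by
    have hz : nm Lc ((0 : FF Lc.S₁) : Acl k Ω) = 0 := by
      rw [unr_eq_zero]; rfl
    exact (h0 0 (by rw [hz]; exact zero_le_one)).2 (by rw [hz]; exact one_pos)
  have hns : ¬ Function.Surjective (fun t : κ => t ^ p - t) := by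
    intro hsur
    have hinj := Finite.injective_iff_surjective.2 hsur
    have : (0 : κ) = 1 := hinj (by simp [hp.ne_zero])
    exact zero_ne_one this
  rw [Function.Surjective] at hns
  push Not at hns
  obtain ⟨a, ha⟩ := hns
  obtain ⟨δ, hδ, hδa⟩ := hs a
  have hpow : ∀ (x : FF Lc.S₁), nm Lc x ≤ 1 → ∀ n : ℕ, ρ (x ^ n) = ρ x ^ n ∧ nm Lc ((x ^ n : FF Lc.S₁) : Acl k Ω) ≤ 1 := by
    intro x hx n
    induction n with
    | zero =>
      refine ⟨by rw [pow_zero, pow_zero, h1], ?_⟩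
      rw [pow_zero]
      exact (unr_one Lc).le
    | succ n ih =>
      have h2 : nm Lc ((x ^ (n + 1) : FF Lc.S₁) : Acl k Ω) ≤ 1 := by
        rw [show ((x ^ (n + 1) : FF Lc.S₁) : Acl k Ω) = (x : Acl k Ω) ^ (n + 1) from rfl, unr_pow]
        exact pow_le_one₀ (unr_nonneg _ _) hx
      refine ⟨?_, h2⟩
      rw [pow_succ, (hr _ x ih.2 hx).2, ih.1, pow_succ]
  have key : ∀ x : FF Lc.S₁, nm Lc x ≤ 1 → 1 ≤ nm Lc ((x : Acl k Ω) ^ p - x - δ) := by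
    intro x hx
    by_contra hc
    push Not at hc
    set y : FF Lc.S₁ := x ^ p - x - δ with hy
    have hyc : (y : Acl k Ω) = (x : Acl k Ω) ^ p - x - δ := rfl
    have h3 : ρ y = 0 := (h0 y (by rw [hyc]; exact hc.le)).2 (by rw [hyc]; exact hc)
    have hxd : nm Lc ((x + δ : FF Lc.S₁) : Acl k Ω) ≤ 1 :=
      (unr_add Lc _ _).trans (max_le hx hδ)
    have h4 : x ^ p = y + (x + δ) := by rw [hy]; ring
    have h5 := (hr y (x + δ) (by rw [hyc]; exact hc.le) hxd).1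
    rw [← h4, (hpow x hx p).1, h3, (hr x δ hx hδ).1, hδa, zero_add] at h5
    exact ha (ρ x) (by rw [h5]; ring)
  refine ⟨δ, δ.2, ?_, fun x hx hx1 => key ⟨x, hx⟩ hx1⟩
  refine le_antisymm hδ ?_
  have h6 := key 0 (by
    rw [show ((0 : FF Lc.S₁) : Acl k Ω) = 0 from rfl, (unr_eq_zero Lc 0).2 rfl]; exact zero_le_one)
  rw [show ((0 : FF Lc.S₁) : Acl k Ω) = 0 from rfl, zero_pow hp.ne_zero, sub_zero, zero_sub, unr_neg] at h6
  exact h6

theorem unr_roots (Lc : Loc k Ω p) (δ : Acl k Ω) (hδ : nm Lc δ = 1) (a b : Acl k Ω)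
    (ha : a ^ p - a = δ) (hb : b ^ p - b = δ) :
    nm Lc a ≤ 1 ∧ (b ≠ a → nm Lc (b - a) = 1 ∧ ∃ i : ℕ, nm Lc (b - a - i) < 1) := by
  have h1 : nm Lc a ≤ 1 := by
    refine unr_int p (Lc.ι a) (Lc.ι δ) hδ.le ?_
    rw [← ha, map_sub, map_pow]
  have h2 : nm Lc b ≤ 1 := by
    refine unr_int p (Lc.ι b) (Lc.ι δ) hδ.le ?_
    rw [← hb, map_sub, map_pow]
  refine ⟨h1, fun hne => ?_⟩
  have h3 := unr_diff p (Lc.ι a) (Lc.ι (b - a)) h1 ((unr_sub Lc b a).trans (max_le h2 h1))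
    (by rw [Ne, map_eq_zero, sub_eq_zero]; exact hne)
    (by
      rw [← map_add, ← map_pow, ← map_sub, ← map_pow, ← map_sub]
      congr 1
      rw [ha, add_sub_cancel, hb])
  refine ⟨h3.2, ?_⟩
  obtain ⟨i, hi⟩ := unr_res p (Lc.ι (b - a)) h3.2.le h3.1
  refine ⟨i, ?_⟩
  unfold nm
  rw [map_sub, map_natCast]
  exact hi

theorem unr_nat (Lc : Loc k Ω p) (j : ℕ) (h0 : 0 < j) (hj : j < p) :
    nm Lc (j : Acl k Ω) = 1 := by
  unfold nm
  rw [map_natCast]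
  exact unr_norm_nat p j h0 hj

/-- the conjugates of `θ` -/
theorem unr_data (hR : ST_RESK) [IsAlgClosed Ω] (Lc : Loc k Ω p) :
    ∃ (δ θ : Acl k Ω) (R : Finset (Acl k Ω)) (cj : Acl k Ω → GG k Ω), δ ∈ FF Lc.S₁ ∧ nm Lc δ = 1 ∧
      θ ∈ R ∧ R.card = p ∧ (∀ r ∈ R, cj r ∈ Stab Lc.S₁ ∧ cj r θ = r) ∧
      (∀ g ∈ Stab Lc.S₁, ∀ r ∈ R, g r ∈ R) ∧ (∀ r ∈ R, nm Lc r ≤ 1) ∧
      (∀ r ∈ R, r ≠ θ → nm Lc (θ - r) = 1) ∧
      (X ^ p - X - C δ : (Acl k Ω)[X]) = ∏ r ∈ R, (X - C r) := by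
  classical
  have hp := (Fact.out : p.Prime)
  obtain ⟨δ, hδF, hδ, hδn⟩ := unr_delta hR Lc
  have : IsAlgClosed (Acl k Ω) := (inferInstance : IsAlgClosure k (Acl k Ω)).isAlgClosed
  have hlt : (X + C δ : (Acl k Ω)[X]).degree < (p : ℕ) := by
    rw [degree_X_add_C]
    exact_mod_cast hp.one_lt
  have hPe : (X ^ p - X - C δ : (Acl k Ω)[X]) = X ^ p - (X + C δ) := by ring
  have hPm : (X ^ p - X - C δ : (Acl k Ω)[X]).Monic := by
    rw [hPe]
    exact monic_X_pow_sub hlt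
  have hPd : (X ^ p - X - C δ : (Acl k Ω)[X]).natDegree = p := by
    rw [hPe, natDegree_sub_eq_left_of_natDegree_lt, natDegree_X_pow]
    rw [natDegree_X_add_C, natDegree_X_pow]
    exact hp.one_lt
  have hroot : ∀ x : Acl k Ω, (X ^ p - X - C δ : (Acl k Ω)[X]).IsRoot x ↔ x ^ p - x = δ := by
    intro x
    rw [IsRoot.def, eval_sub, eval_sub, eval_pow, eval_X, eval_C, sub_eq_zero]
  obtain ⟨θ, hθr⟩ := IsAlgClosed.exists_root (X ^ p - X - C δ : (Acl k Ω)[X]) (by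
    rw [degree_eq_natDegree hPm.ne_zero, hPd]
    exact_mod_cast hp.ne_zero)
  have hθ := (hroot θ).1 hθr
  have hg : ∀ g ∈ Stab Lc.S₁, ∀ x : Acl k Ω, x ^ p - x = δ → (g x) ^ p - g x = δ := by
    intro g hg x hx
    rw [← map_pow, ← map_sub, hx]
    exact hδF g hg
  have hθ1 : nm Lc θ ≤ 1 := (unr_roots Lc δ hδ θ θ hθ hθ).1
  have hθF : θ ∉ FF Lc.S₁ := by
    intro hF
    have := hδn θ hF hθ1
    rw [hθ, sub_self, (unr_eq_zero Lc 0).2 rfl] at this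
    linarith
  rw [mem_FF] at hθF
  push Not at hθF
  obtain ⟨τ, hτ, hτθ⟩ := hθF
  have hτj : ∀ j : ℕ, τ ^ j ∈ Stab Lc.S₁ := fun j => pow_mem hτ j
  set th : ℕ → Acl k Ω := fun j => (τ ^ j) θ with hth
  have hthr : ∀ j, (th j) ^ p - th j = δ := fun j => hg _ (hτj j) θ hθ
  obtain ⟨hd1, i, hi⟩ := (unr_roots Lc δ hδ θ (τ θ) hθ (hg τ hτ θ hθ)).2 hτθ
  have hi1 : 1 ≤ nm Lc (i : Acl k Ω) := by
    by_contra hc
    push Not at hc
    have h1 := unr_add Lc (τ θ - θ - i) i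
    rw [sub_add_cancel, hd1] at h1
    exact absurd (h1.trans_lt (max_lt hi hc)) (lt_irrefl _)
  have hsum : ∀ j : ℕ, nm Lc (th j - θ - (j : Acl k Ω) * i) < 1 := by
    intro j
    induction j with
    | zero =>
      have : th 0 - θ - ((0 : ℕ) : Acl k Ω) * i = 0 := by
        rw [hth]; simp
      rw [this, (unr_eq_zero Lc 0).2 rfl]
      exact one_pos
    | succ j ih =>
      have h1 : th (j + 1) - θ - ((j + 1 : ℕ) : Acl k Ω) * i
          = (τ ^ j) (τ θ - θ - i) + (th j - θ - (j : Acl k Ω) * i) := by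
        rw [hth]
        simp only
        rw [pow_succ, AlgEquiv.mul_apply, map_sub, map_sub, map_natCast]
        push_cast
        ring
      rw [h1]
      refine lt_of_le_of_lt (unr_add Lc _ _) (max_lt ?_ ih)
      rw [show nm Lc ((τ ^ j) (τ θ - θ - i)) = nm Lc (τ θ - θ - i) from Lc.iso _ (hτj j) _]
      exact hi
  have hne : ∀ j : ℕ, 0 < j → j < p → th j ≠ θ := by
    intro j h0 hj he
    have h1 := hsum j
    rw [he, sub_self, zero_sub, unr_neg, unr_mul, unr_nat Lc j h0 hj, one_mul] at h1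
    linarith
  have hinj : ∀ a b : ℕ, a < b → b < p → th a ≠ th b := by
    intro a b hab hb he
    have h1 : th b = (τ ^ a) (th (b - a)) := by
      rw [hth]
      simp only
      rw [← AlgEquiv.mul_apply, ← pow_add]
      congr 2
      omega
    rw [h1] at he
    exact hne (b - a) (by omega) (by omega) ((τ ^ a).injective he).symm
  set R : Finset (Acl k Ω) := (Finset.range p).image th with hRdef
  have hRcard : R.card = p := by
    rw [hRdef, Finset.card_image_of_injOn, Finset.card_range]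
    intro a ha b hb he
    rw [Finset.coe_range, Set.mem_Iio] at ha hb
    rcases lt_trichotomy a b with h | h | h
    · exact absurd he (hinj a b h hb)
    · exact h
    · exact absurd he.symm (hinj b a h ha)
  have hRroot : ∀ r ∈ R, r ^ p - r = δ := by
    intro r hr
    rw [hRdef, Finset.mem_image] at hr
    obtain ⟨j, _, rfl⟩ := hr
    exact hthr j
  have hle : R.val ≤ (X ^ p - X - C δ : (Acl k Ω)[X]).roots := by
    rw [Multiset.le_iff_subset R.nodup]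
    intro r hr
    rw [mem_roots hPm.ne_zero, hroot]
    exact hRroot r hr
  have hcr := card_roots' (X ^ p - X - C δ : (Acl k Ω)[X])
  have hReq : R.val = (X ^ p - X - C δ : (Acl k Ω)[X]).roots := by
    apply Multiset.eq_of_le_of_card_le hle
    rw [Finset.card_val, hRcard]
    exact hcr.trans hPd.le
  have hprod := Polynomial.prod_multiset_X_sub_C_of_monic_of_roots_card_eq hPm
    (by rw [← hReq, hPd, Finset.card_val, hRcard])
  rw [← hReq] at hprod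
  have hmem : ∀ x : Acl k Ω, x ^ p - x = δ → x ∈ R := by
    intro x hx
    rw [← Finset.mem_val, hReq, mem_roots hPm.ne_zero, hroot]
    exact hx
  have hcj : ∀ r, ∃ g : GG k Ω, r ∈ R → g ∈ Stab Lc.S₁ ∧ g θ = r := by
    intro r
    by_cases hr : r ∈ R
    · rw [hRdef, Finset.mem_image] at hr
      obtain ⟨j, _, hj⟩ := hr
      exact ⟨τ ^ j, fun _ => ⟨hτj j, hj⟩⟩
    · exact ⟨1, fun h => absurd h hr⟩
  choose cj hcj using hcj
  refine ⟨δ, θ, R, cj, hδF, hδ, hmem θ hθ, hRcard, hcj, fun g hg' r hr => hmem _ (hg g hg' r (hRroot r hr)),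
    fun r hr => (unr_roots Lc δ hδ r r (hRroot r hr) (hRroot r hr)).1, fun r hr hne => ?_, hprod.symm⟩
  exact ((unr_roots Lc δ hδ r θ (hRroot r hr) hθ).2 (Ne.symm hne)).1

section conj

variable (Lc : Loc k Ω p) (θ : Acl k Ω) (R : Finset (Acl k Ω)) (cj : Acl k Ω → GG k Ω)

theorem unr_stab (hcj : ∀ r ∈ R, cj r ∈ Stab Lc.S₁ ∧ cj r θ = r)
    (hst : ∀ g ∈ Stab Lc.S₁, ∀ r ∈ R, g r ∈ R) (g : GG k Ω) (hg : g ∈ Stab Lc.S₁) (r : Acl k Ω)
    (hr : r ∈ R) : (cj (g r))⁻¹ * (g * cj r) ∈ Stab (Lc.S₁ ∪ {θ}) := by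
  have h1 := hcj r hr
  have h2 := hcj (g r) (hst g hg r hr)
  have h3 : (cj (g r))⁻¹ * (g * cj r) ∈ Stab Lc.S₁ := mul_mem (inv_mem h2.1) (mul_mem hg h1.1)
  intro a ha
  rcases ha with ha | ha
  · exact h3 a ha
  · rw [Set.mem_singleton_iff] at ha
    subst ha
    rw [AlgEquiv.mul_apply, AlgEquiv.mul_apply, h1.2]
    have h4 : (cj (g r))⁻¹ ((cj (g r)) a) = a := by
      rw [← AlgEquiv.mul_apply, inv_mul_cancel]; rfl
    rwa [h2.2] at h4

theorem unr_conjA (hcj : ∀ r ∈ R, cj r ∈ Stab Lc.S₁ ∧ cj r θ = r)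
    (hst : ∀ g ∈ Stab Lc.S₁, ∀ r ∈ R, g r ∈ R) (g : GG k Ω) (hg : g ∈ Stab Lc.S₁) (r : Acl k Ω)
    (hr : r ∈ R) (u : Acl k Ω) (hu : u ∈ FF (Lc.S₁ ∪ {θ})) : g (cj r u) = cj (g r) u := by
  have h := hu _ (unr_stab Lc θ R cj hcj hst g hg r hr)
  rw [AlgEquiv.mul_apply, AlgEquiv.mul_apply] at h
  have h2 := congrArg (cj (g r)) h
  rw [← AlgEquiv.mul_apply, mul_inv_cancel] at h2
  exact h2

theorem unr_conjΩ (D : Sec k Ω) (hcj : ∀ r ∈ R, cj r ∈ Stab Lc.S₁ ∧ cj r θ = r)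
    (hst : ∀ g ∈ Stab Lc.S₁, ∀ r ∈ R, g r ∈ R) (g : GG k Ω) (hg : g ∈ Stab Lc.S₁) (r : Acl k Ω)
    (hr : r ∈ R) (u : Ω) (hu : u ∈ NN D (Lc.S₁ ∪ {θ})) :
    D.s g (D.s (cj r) u) = D.s (cj (g r)) u := by
  have h := hu _ (unr_stab Lc θ R cj hcj hst g hg r hr)
  rw [map_mul, map_mul, AlgEquiv.mul_apply, AlgEquiv.mul_apply] at h
  have h2 := congrArg (D.s (cj (g r))) h
  rw [← AlgEquiv.mul_apply, ← map_mul, mul_inv_cancel, map_one] at h2
  exact h2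

theorem unr_perm [DecidableEq (Acl k Ω)] (hst : ∀ g ∈ Stab Lc.S₁, ∀ r ∈ R, g r ∈ R) (g : GG k Ω)
    (hg : g ∈ Stab Lc.S₁) : R.image g = R := by
  apply Finset.eq_of_subset_of_card_le
  · intro x hx
    rw [Finset.mem_image] at hx
    obtain ⟨r, hr, rfl⟩ := hx
    exact hst g hg r hr
  · rw [Finset.card_image_of_injective _ g.injective]

/-- symmetric sums are in `F₁` -/
theorem unr_symsum (hcj : ∀ r ∈ R, cj r ∈ Stab Lc.S₁ ∧ cj r θ = r)
    (hst : ∀ g ∈ Stab Lc.S₁, ∀ r ∈ R, g r ∈ R) (u : Acl k Ω) (hu : u ∈ FF (Lc.S₁ ∪ {θ})) :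
    ∑ r ∈ R, cj r u ∈ FF Lc.S₁ := by
  classical
  intro g hg
  rw [map_sum]
  calc ∑ r ∈ R, g (cj r u) = ∑ r ∈ R, (fun x => cj x u) (g r) :=
        Finset.sum_congr rfl fun r hr => unr_conjA Lc θ R cj hcj hst g hg r hr u hu
    _ = ∑ x ∈ R.image g, (fun x => cj x u) x := by
        rw [Finset.sum_image]
        intro a _ b _ h
        exact g.injective h
    _ = _ := by rw [unr_perm Lc R hst g hg]

theorem unr_symprod (hcj : ∀ r ∈ R, cj r ∈ Stab Lc.S₁ ∧ cj r θ = r)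
    (hst : ∀ g ∈ Stab Lc.S₁, ∀ r ∈ R, g r ∈ R) (u : Acl k Ω) (hu : u ∈ FF (Lc.S₁ ∪ {θ})) :
    ∏ r ∈ R, cj r u ∈ FF Lc.S₁ := by
  classical
  intro g hg
  rw [map_prod]
  calc ∏ r ∈ R, g (cj r u) = ∏ r ∈ R, (fun x => cj x u) (g r) :=
        Finset.prod_congr rfl fun r hr => unr_conjA Lc θ R cj hcj hst g hg r hr u hu
    _ = ∏ x ∈ R.image g, (fun x => cj x u) x := by
        rw [Finset.prod_image]
        intro a _ b _ h
        exact g.injective h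
    _ = _ := by rw [unr_perm Lc R hst g hg]

theorem unr_symprodΩ (D : Sec k Ω) (hcj : ∀ r ∈ R, cj r ∈ Stab Lc.S₁ ∧ cj r θ = r)
    (hst : ∀ g ∈ Stab Lc.S₁, ∀ r ∈ R, g r ∈ R) (u : Ω) (hu : u ∈ NN D (Lc.S₁ ∪ {θ})) :
    ∏ r ∈ R, D.s (cj r) u ∈ NN D Lc.S₁ := by
  classical
  intro g hg
  rw [map_prod]
  calc ∏ r ∈ R, D.s g (D.s (cj r) u) = ∏ r ∈ R, (fun x => D.s (cj x) u) (g r) :=
        Finset.prod_congr rfl fun r hr => unr_conjΩ Lc θ R cj D hcj hst g hg r hr u hu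
    _ = ∏ x ∈ R.image g, (fun x => D.s (cj x) u) x := by
        rw [Finset.prod_image]
        intro a _ b _ h
        exact g.injective h
    _ = _ := by rw [unr_perm Lc R hst g hg]

/-- `e = 1` -/
theorem unr_e1 (hθR : θ ∈ R) (hcj : ∀ r ∈ R, cj r ∈ Stab Lc.S₁ ∧ cj r θ = r)
    (hst : ∀ g ∈ Stab Lc.S₁, ∀ r ∈ R, g r ∈ R) (hint : ∀ r ∈ R, nm Lc r ≤ 1)
    (hdist : ∀ r ∈ R, r ≠ θ → nm Lc (θ - r) = 1) (y : Acl k Ω) (hy : y ∈ FF (Lc.S₁ ∪ {θ}))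
    (hy0 : y ≠ 0) : ∃ j : ℤ, nm Lc y = nm Lc Lc.π ^ j := by
  classical
  have hθF : θ ∈ FF (Lc.S₁ ∪ {θ}) := subset_FF _ (Or.inr rfl)
  have hypos : 0 < nm Lc y := lt_of_le_of_ne (unr_nonneg _ _) (fun h => hy0 ((unr_eq_zero Lc y).1 h.symm))
  -- the sums
  have ht : ∀ m : ℕ, ∑ r ∈ R, cj r y * r ^ m ∈ FF Lc.S₁ := by
    intro m
    have h := unr_symsum Lc θ R cj hcj hst (y * θ ^ m) (mul_mem hy (pow_mem hθF m))
    convert h using 1
    refine Finset.sum_congr rfl fun r hr => ?_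
    rw [map_mul, map_pow, (hcj r hr).2]
  have htle : ∀ m : ℕ, nm Lc (∑ r ∈ R, cj r y * r ^ m) ≤ nm Lc y := by
    intro m
    refine unr_sum Lc R _ _ hypos.le fun r hr => ?_
    rw [unr_mul, unr_pow, show nm Lc (cj r y) = nm Lc y from Lc.iso _ (hcj r hr).1 _]
    have := pow_le_one₀ (unr_nonneg Lc r) (hint r hr) (n := m)
    nlinarith
  by_cases hex : ∃ m : ℕ, nm Lc (∑ r ∈ R, cj r y * r ^ m) = nm Lc y
  · obtain ⟨m, hm⟩ := hex
    have hne : ∑ r ∈ R, cj r y * r ^ m ≠ 0 := by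
      intro h
      rw [h, (unr_eq_zero Lc 0).2 rfl] at hm
      linarith
    obtain ⟨j, hj⟩ := Lc.disc _ (ht m) hne
    refine ⟨j, ?_⟩
    rw [← hm]
    exact hj
  · exfalso
    push Not at hex
    have hlt : ∀ m : ℕ, nm Lc (∑ r ∈ R, cj r y * r ^ m) < nm Lc y := fun m =>
      lt_of_le_of_ne (htle m) (hex m)
    have key : ∀ T : Finset (Acl k Ω), T ⊆ R → ∀ m : ℕ,
        nm Lc (∑ r ∈ R, cj r y * (r ^ m * ∏ a ∈ T, (r - a))) < nm Lc y := by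
      intro T
      induction T using Finset.induction_on with
      | empty =>
        intro _ m
        simpa using hlt m
      | insert b T hb ih =>
        intro hT m
        have hTR : T ⊆ R := fun x hx => hT (Finset.mem_insert_of_mem hx)
        have hbR : b ∈ R := hT (Finset.mem_insert_self _ _)
        have h1 : ∑ r ∈ R, cj r y * (r ^ m * ∏ a ∈ insert b T, (r - a)) =
            ∑ r ∈ R, cj r y * (r ^ (m + 1) * ∏ a ∈ T, (r - a)) -
              b * ∑ r ∈ R, cj r y * (r ^ m * ∏ a ∈ T, (r - a)) := by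
          rw [Finset.mul_sum, ← Finset.sum_sub_distrib]
          refine Finset.sum_congr rfl fun r _ => ?_
          rw [Finset.prod_insert hb]
          ring
        rw [h1]
        refine lt_of_le_of_lt (unr_sub Lc _ _) (max_lt (ih hTR _) ?_)
        rw [unr_mul]
        have h2 := ih hTR m
        have h3 := hint b hbR
        nlinarith [unr_nonneg Lc (∑ r ∈ R, cj r y * (r ^ m * ∏ a ∈ T, (r - a))), unr_nonneg Lc b]
    have h1 := key (R.erase θ) (Finset.erase_subset _ _) 0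
    rw [Finset.sum_eq_single_of_mem θ hθR] at h1
    · rw [unr_mul, pow_zero, one_mul, unr_prodn, Finset.prod_eq_one, mul_one] at h1
      · rw [show nm Lc (cj θ y) = nm Lc y from Lc.iso _ (hcj θ hθR).1 _] at h1
        exact lt_irrefl _ h1
      · intro r hr
        rw [Finset.mem_erase] at hr
        exact hdist r hr.2 hr.1
    · intro r hr hne
      rw [Finset.prod_eq_zero (Finset.mem_erase.2 ⟨hne, hr⟩) (sub_self r), mul_zero, mul_zero]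

end conj

end

/-- UNR -/
theorem st_UNR (hK : ST_KUM) (hR : ST_RESK) : ST_UNR := by
  intro k Ω _ _ _ _ _ D p _ Lc
  classical
  have hp := (Fact.out : p.Prime)
  obtain ⟨δ, θ, R, cj, hδF, hδ, hθR, hcard, hcj, hst, hint, hdist, hpoly⟩ := unr_data hR Lc
  have hδ0 : δ ≠ 0 := fun h => by
    rw [h, (unr_eq_zero Lc 0).2 rfl] at hδ
    exact zero_ne_one hδ
  refine ⟨⟨δ, hδF⟩ ^ (p - 1), ?_, ?_⟩
  · rw [show (((⟨δ, hδF⟩ : FF Lc.S₁) ^ (p - 1) : FF Lc.S₁) : Acl k Ω) = δ ^ (p - 1) from rfl,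
      unr_pow, hδ, one_pow]
  intro z hz0
  have hpolyΩ : ∀ x : Ω, x ^ p - x - (δ : Ω) = ∏ r ∈ R, (x - (r : Ω)) := by
    intro x
    have h := congrArg (fun P => eval₂ (algebraMap (Acl k Ω) Ω) x P) hpoly
    simp only [eval₂_finsetProd, eval₂_sub, eval₂_pow, eval₂_X, eval₂_C] at h
    exact h
  have hδΩ : (δ : Ω) ≠ 0 := fun h => hδ0 (Subtype.ext h)
  have hppow : (δ : Ω) * (δ : Ω) ^ (p - 1) = (δ : Ω) ^ p := mul_pow_sub_one hp.ne_zero _
  set w : NN D Lc.S₁ := 1 + z - inc D Lc.S₁ (⟨δ, hδF⟩ ^ (p - 1)) * z ^ p with hw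
  have hwΩ : (w : Ω) = 1 + z - (δ : Ω) ^ (p - 1) * (z : Ω) ^ p := rfl
  have hid : ∏ r ∈ R, ((δ : Ω) * z - (r : Ω)) = - ((δ : Ω) * w) := by
    rw [← hpolyΩ, hwΩ]
    linear_combination (z : Ω) ^ p * hppow.symm
  have hδm : ∀ S' : Set (Acl k Ω), Stab S' ≤ Stab Lc.S₁ → (δ : Ω) ∈ NN D S' := by
    intro S' hS'
    rw [coe_mem_NN]
    exact FF_le hS' hδF
  have hSle : Stab (Lc.S₁ ∪ {θ}) ≤ Stab Lc.S₁ := fun g hg a ha => hg a (Or.inl ha)
  have hθm : (θ : Ω) ∈ NN D (Lc.S₁ ∪ {θ}) := by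
    rw [coe_mem_NN]
    exact subset_FF _ (Or.inr rfl)
  have hx0m : (δ : Ω) * z - θ ∈ NN D (Lc.S₁ ∪ {θ}) :=
    sub_mem (mul_mem (hδm _ hSle) (NN_le D hSle z.2)) hθm
  have hx0 : (⟨_, hx0m⟩ : NN D (Lc.S₁ ∪ {θ})) ≠ 0 := by
    intro h
    have h1 : (δ : Ω) * z - θ = 0 := congrArg Subtype.val h
    have h2 := Finset.prod_eq_zero (f := fun r : Acl k Ω => (δ : Ω) * z - (r : Ω)) hθR h1
    rw [hid, neg_eq_zero, mul_eq_zero] at h2
    rcases h2 with h2 | h2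
    · exact hδΩ h2
    · exact hz0 (Subtype.ext h2)
  obtain ⟨c₀, hc₀, h, hh0, hxe⟩ := hK k Ω D (Lc.S₁ ∪ {θ}) p hp.pos _ hx0
  have hxeΩ : (δ : Ω) * z - θ = ((c₀ : Acl k Ω) : Ω) * (h : Ω) ^ p := congrArg Subtype.val hxe
  have hconj : ∀ r ∈ R, (δ : Ω) * z - (r : Ω) = ((cj r c₀ : Acl k Ω) : Ω) * (D.s (cj r) (h : Ω)) ^ p := by
    intro r hr
    have h1 := congrArg (D.s (cj r)) hxeΩ
    rw [map_sub, map_mul, map_mul, map_pow, D.ext, D.ext, D.ext, z.2 _ (hcj r hr).1,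
      hδF _ (hcj r hr).1, (hcj r hr).2] at h1
    exact h1
  have hYm := unr_symprod Lc θ R cj hcj hst (c₀ : Acl k Ω) c₀.2
  have hHm := unr_symprodΩ Lc θ R cj D hcj hst (h : Ω) h.2
  set Y : FF Lc.S₁ := ⟨_, hYm⟩ with hY
  set H : NN D Lc.S₁ := ⟨_, hHm⟩ with hH
  have hprodΩ : - ((δ : Ω) * w) = ((Y : Acl k Ω) : Ω) * (H : Ω) ^ p := by
    rw [← hid, Finset.prod_congr rfl hconj, Finset.prod_mul_distrib, Finset.prod_pow]
    congr 1
    exact (map_prod (algebraMap (Acl k Ω) Ω) (fun r => cj r (c₀ : Acl k Ω)) R).symm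
  obtain ⟨j, hj⟩ := unr_e1 Lc θ R cj hθR hcj hst hint hdist (c₀ : Acl k Ω) c₀.2
    (fun h => hc₀ (Subtype.ext h))
  have hYn : nm Lc (Y : Acl k Ω) = (nm Lc Lc.π ^ j) ^ p := by
    have h1 : nm Lc (Y : Acl k Ω) = ∏ r ∈ R, nm Lc (cj r c₀) := unr_prodn Lc R _
    rw [h1, Finset.prod_congr rfl (fun r hr =>
      show nm Lc (cj r c₀) = nm Lc (c₀ : Acl k Ω) from Lc.iso _ (hcj r hr).1 _), Finset.prod_const, hcard,
      hj]
  have hπ0 : Lc.π ≠ 0 := fun h => by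
    have := Lc.posπ
    rw [h, map_zero, norm_zero] at this
    exact lt_irrefl _ this
  obtain ⟨q, hq⟩ : ∃ q : FF Lc.S₁, (q : Acl k Ω) = Lc.π ^ j :=
    ⟨⟨Lc.π, Lc.memπ⟩ ^ j, map_zpow₀ (algebraMap (FF Lc.S₁) (Acl k Ω)) ⟨Lc.π, Lc.memπ⟩ j⟩
  have hqA0 : (q : Acl k Ω) ≠ 0 := by rw [hq]; exact zpow_ne_zero _ hπ0
  have hqn : nm Lc (q : Acl k Ω) = nm Lc Lc.π ^ j := by
    rw [hq]; unfold nm; rw [map_zpow₀, norm_zpow]
  set δF : FF Lc.S₁ := ⟨δ, hδF⟩ with hδFd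
  have hqΩ : ((q : Acl k Ω) : Ω) ≠ 0 := fun h => hqA0 (Subtype.ext h)
  refine ⟨-(δF⁻¹) * Y * (q⁻¹) ^ p, ?_, inc D Lc.S₁ q * H, ?_⟩
  · have h1 : ((-(δF⁻¹) * Y * (q⁻¹) ^ p : FF Lc.S₁) : Acl k Ω)
        = -(δ⁻¹) * (Y : Acl k Ω) * ((q : Acl k Ω)⁻¹) ^ p := rfl
    have hinv : ∀ x : Acl k Ω, nm Lc (x⁻¹) = (nm Lc x)⁻¹ := by
      intro x; unfold nm; rw [map_inv₀, norm_inv]
    rw [h1, unr_mul, unr_mul, unr_neg, unr_pow, hinv, hinv, hδ, hYn, hqn, inv_one, one_mul, inv_pow]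
    apply mul_inv_cancel₀
    apply pow_ne_zero
    apply zpow_ne_zero
    intro h
    exact hπ0 ((unr_eq_zero Lc _).1 h)
  · apply Subtype.ext
    have h1 : ((inc D Lc.S₁ (-(δF⁻¹) * Y * (q⁻¹) ^ p) * (inc D Lc.S₁ q * H) ^ p : NN D Lc.S₁) : Ω)
        = (-((δ : Ω)⁻¹) * (Y : Acl k Ω) * (((q : Acl k Ω) : Ω)⁻¹) ^ p) *
          (((q : Acl k Ω) : Ω) * (H : Ω)) ^ p := rfl
    rw [h1]
    have h2 : ((w : NN D Lc.S₁) : Ω) = -((δ : Ω)⁻¹) * (((Y : Acl k Ω) : Ω) * (H : Ω) ^ p) := by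
      rw [← hprodΩ]
      field_simp
    rw [h2, mul_pow]
    have h3 : (((q : Acl k Ω) : Ω)⁻¹) ^ p * ((q : Acl k Ω) : Ω) ^ p = 1 := by
      rw [← mul_pow, inv_mul_cancel₀ hqΩ, one_pow]
    linear_combination (-((-((δ : Ω)⁻¹)) * (((Y : Acl k Ω) : Ω) * (H : Ω) ^ p))) * h3

end Pool.Agent.Helper14.BSC
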